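import Pool.Agent.H31.ST.COVER
import Pool.Agent.H21.ST.TEL

/-! MP_0b97f5_mp, module CHAIN.  helper18 -/

open Set Filter Topology Matrix Polynomial

noncomputable section

namespace H31.ST.H18

open H31.ST

/-! ### polynomial functions -/

/-- `f` is a polynomial function -/
def IsPoly (f : ℝ → ℝ) : Prop := ∃ p : ℝ[X], ∀ t, f t = p.eval t

theorem IsPoly.const (c : ℝ) : IsPoly (fun _ => c) := ⟨C c, fun t => by simp⟩

theorem IsPoly.add {f g : ℝ → ℝ} (hf : IsPoly f) (hg : IsPoly g) : IsPoly (fun t => f t + g t) := by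
  obtain ⟨p, hp⟩ := hf
  obtain ⟨q, hq⟩ := hg
  exact ⟨p + q, fun t => by simp [hp, hq]⟩

theorem IsPoly.sub {f g : ℝ → ℝ} (hf : IsPoly f) (hg : IsPoly g) : IsPoly (fun t => f t - g t) := by
  obtain ⟨p, hp⟩ := hf
  obtain ⟨q, hq⟩ := hg
  exact ⟨p - q, fun t => by simp [hp, hq]⟩

theorem IsPoly.mul {f g : ℝ → ℝ} (hf : IsPoly f) (hg : IsPoly g) : IsPoly (fun t => f t * g t) := by
  obtain ⟨p, hp⟩ := hf
  obtain ⟨q, hq⟩ := hg
  exact ⟨p * q, fun t => by simp [hp, hq]⟩

theorem IsPoly.shift {f : ℝ → ℝ} (hf : IsPoly f) (c : ℝ) : IsPoly (fun t => f (t + c)) := by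
  obtain ⟨p, hp⟩ := hf
  exact ⟨p.comp (Polynomial.X + C c), fun t => by simp [hp]⟩

/-- all entries are polynomial functions -/
def IsPolyM (A : ℝ → Mat) : Prop := ∀ i j, IsPoly (fun E => A E i j)

theorem IsPolyM.mul {A B : ℝ → Mat} (hA : IsPolyM A) (hB : IsPolyM B) :
    IsPolyM (fun E => A E * B E) := by
  intro i j
  simp only [Matrix.mul_apply, Fin.sum_univ_two]
  exact ((hA i 0).mul (hB 0 j)).add ((hA i 1).mul (hB 1 j))

theorem IsPolyM.pow {A : ℝ → Mat} (hA : IsPolyM A) (n : ℕ) : IsPolyM (fun E => A E ^ n) := by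
  induction n with
  | zero =>
    intro i j
    simp only [pow_zero]
    exact IsPoly.const _
  | succ n ih =>
    simp only [pow_succ]
    exact ih.mul hA

theorem IsPolyM.trace {A : ℝ → Mat} (hA : IsPolyM A) : IsPoly (fun E => (A E).trace) := by
  simp only [Matrix.trace_fin_two]
  exact (hA 0 0).add (hA 1 1)

theorem Mm_poly (lam : ℝ) (a : ℕ → ℕ) (n : ℕ) : IsPolyM (fun E => Mm lam a E n) := by
  induction n using Nat.strong_induction_on with
  | _ n ih =>
    match n, ih with
    | 0, _ =>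
      intro i j
      simp only [Mm]
      exact IsPoly.const _
    | 1, _ =>
      intro i j
      fin_cases i <;> fin_cases j
      · exact ⟨Polynomial.X, fun t => by simp [Mm]⟩
      · exact ⟨C (-1), fun t => by simp [Mm]⟩
      · exact ⟨C 1, fun t => by simp [Mm]⟩
      · exact ⟨C 0, fun t => by simp [Mm]⟩
    | (k + 2), ih =>
      simp only [Mm]
      exact (ih k (by omega)).mul ((ih (k + 1) (by omega)).pow _)

theorem tQ_poly (lam : ℝ) (a : ℕ → ℕ) (s : St) : IsPoly (tQ lam a s) := by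
  cases s with
  | plus k => exact (Mm_poly lam a (k + 1)).trace
  | minus k j => exact ((Mm_poly lam a k).mul ((Mm_poly lam a (k + 1)).pow j)).trace

theorem tP_poly (lam : ℝ) (a : ℕ → ℕ) (s : St) : IsPoly (tP lam a s) := by
  cases s with
  | plus k => exact (Mm_poly lam a k).trace
  | minus k j => exact ((Mm_poly lam a k).mul ((Mm_poly lam a (k + 1)).pow (j - 1))).trace

theorem tW_poly (lam : ℝ) (a : ℕ → ℕ) (s : St) : IsPoly (tW lam a s) := by
  cases s with
  | plus k => exact ((Mm_poly lam a k).mul (Mm_poly lam a (k + 1))).trace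
  | minus k j =>
    exact ((tP_poly lam a (St.minus k j)).mul (tQ_poly lam a (St.minus k j))).sub
      (Mm_poly lam a (k + 1)).trace

theorem poly_eq {p q : ℝ[X]} {l h : ℝ} (hlh : l < h) (H : ∀ t ∈ Icc l h, p.eval t = q.eval t) :
    p = q := by
  apply Polynomial.eq_of_infinite_eval_eq
  exact (Icc_infinite hlh).mono H

theorem deriv_poly (p : ℝ[X]) : deriv (fun t => p.eval t) = fun t => p.derivative.eval t := by
  funext t
  exact p.deriv

theorem contDiff_poly (p : ℝ[X]) : ContDiff ℝ 2 (fun t => p.eval t) := by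
  have := p.contDiff_aeval (𝕜 := ℝ) 2
  simpa using this

/-! ### the trace of the second word of a state as an `xt` -/

theorem Mm_update (lam : ℝ) (a : ℕ → ℕ) (k j : ℕ) (E : ℝ) (i : ℕ) (hi : i ≤ k + 1) :
    Mm lam (Function.update a k j) E i = Mm lam a E i := by
  induction i using Nat.strong_induction_on with
  | _ i ih =>
    match i, ih, hi with
    | 0, _, _ => rfl
    | 1, _, _ => rfl
    | (n + 2), ih, hi =>
      simp only [Mm]
      rw [ih n (by omega) (by omega), ih (n + 1) (by omega) (by omega),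
        Function.update_of_ne (by omega)]

theorem tQ_xt (lam : ℝ) {a : ℕ → ℕ} (ha : ∀ k, 1 ≤ a k) {b : Bool} {w : List Sym} {s : St}
    (h : Adm a (rootSt b) w s) :
    ∃ (a' : ℕ → ℕ) (n : ℕ), (∀ k, 1 ≤ a' k) ∧ 1 ≤ n ∧ ∀ E, tQ lam a s E = xt lam a' n E := by
  cases s with
  | plus k => exact ⟨a, k + 1, ha, by omega, fun E => rfl⟩
  | minus k j =>
    obtain ⟨h1, h2⟩ := h.idx ha k j rfl
    refine ⟨Function.update a k j, k + 2, ?_, by omega, ?_⟩
    · intro i
      by_cases hi : i = k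
      · subst hi; simp [h1]
      · rw [Function.update_of_ne hi]; exact ha i
    · intro E
      simp only [tQ, xt, Mm]
      rw [Mm_update lam a k j E k (by omega), Mm_update lam a k j E (k + 1) (by omega),
        Function.update_self]

/-! ### polynomial data of a band -/

/-- polynomial data of a band -/
structure PD (lam : ℝ) (w : List Sym) (py px pz : ℝ[X]) : Prop where
  on : ∀ t ∈ Icc (lo lam w) (hi lam w), run lam w (2, t) = (py.eval t, px.eval t) ∧
    zz lam (py.eval t) (px.eval t) = pz.eval t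
  lag : ∀ t, |px.eval t| < R lam → px.derivative.eval t ≠ 0 ∧
    |px.derivative.derivative.eval t| * (R lam - |px.eval t|) ≤ (px.derivative.eval t) ^ 2

theorem exists_PD (hT : T_TRACK) (hB : T_BAND) (hV : T_ADMV) (hP : T_POLY) (hZ : T_ZEROS)
    (hG : T_GAP) (hL : T_LAG) {lam : ℝ} (hl : 0 < lam) {a : ℕ → ℕ} (ha : ∀ k, 1 ≤ a k) {b : Bool}
    {w : List Sym} {s : St} (h : Adm a (rootSt b) w s) : ∃ py px pz : ℝ[X], PD lam w py px pz := by
  obtain ⟨s₁, s₂, h1, h2, h3⟩ := track_closed hT hB hV hl ha h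
  obtain ⟨a', n, ha', hn, hx⟩ := tQ_xt lam ha h
  obtain ⟨p, _, _, hp, hlag⟩ := xt_lag hP hZ hG hL hl ha' hn
  obtain ⟨qy, hqy⟩ := (tP_poly lam a s).shift (off lam b)
  obtain ⟨qz, hqz⟩ := (tW_poly lam a s).shift (off lam b)
  have hs2 : |s₂| = 1 := by rcases h2 with h2 | h2 <;> rw [h2] <;> norm_num
  have hs2' : s₂ ^ 2 = 1 := by rcases h2 with h2 | h2 <;> rw [h2] <;> norm_num
  refine ⟨C s₁ * qy, C s₂ * p.comp (Polynomial.X + C (off lam b)), C (s₁ * s₂) * qz, ?_, ?_⟩
  · intro t ht
    obtain ⟨e1, e2⟩ := h3 t ht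
    have f1 : (C s₁ * qy).eval t = s₁ * tP lam a s (t + off lam b) := by
      rw [eval_mul, eval_C, ← hqy t]
    have f2 : (C s₂ * p.comp (Polynomial.X + C (off lam b))).eval t = s₂ * tQ lam a s (t + off lam b) := by
      rw [eval_mul, eval_C, eval_comp, eval_add, Polynomial.eval_X, eval_C, hp, hx]
    have f3 : (C (s₁ * s₂) * qz).eval t = s₁ * s₂ * tW lam a s (t + off lam b) := by
      rw [eval_mul, eval_C, ← hqz t]
    rw [f1, f2, f3]
    refine ⟨e1, ?_⟩
    rw [e1] at e2
    exact e2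
  · intro t ht
    have f0 : (C s₂ * p.comp (Polynomial.X + C (off lam b))).eval t = s₂ * p.eval (t + off lam b) := by
      simp
    have f1 : (C s₂ * p.comp (Polynomial.X + C (off lam b))).derivative =
        C s₂ * p.derivative.comp (Polynomial.X + C (off lam b)) := by
      rw [derivative_C_mul, derivative_comp]
      simp
    have f2 : (C s₂ * p.derivative.comp (Polynomial.X + C (off lam b))).derivative =
        C s₂ * p.derivative.derivative.comp (Polynomial.X + C (off lam b)) := by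
      rw [derivative_C_mul, derivative_comp]
      simp
    have f3 : (C s₂ * p.derivative.comp (Polynomial.X + C (off lam b))).eval t =
        s₂ * p.derivative.eval (t + off lam b) := by simp
    have f4 : (C s₂ * p.derivative.derivative.comp (Polynomial.X + C (off lam b))).eval t =
        s₂ * p.derivative.derivative.eval (t + off lam b) := by simp
    rw [f1, f2, f3, f4, f0]
    rw [f0, abs_mul, hs2, one_mul] at ht
    obtain ⟨g1, g2⟩ := hlag _ ht
    constructor
    · apply mul_ne_zero _ g1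
      intro h0; rw [h0] at hs2; simp at hs2
    · rw [abs_mul, abs_mul, hs2, one_mul, one_mul, mul_pow, hs2', one_mul]
      exact g2

theorem PD.lev (hB : T_BAND) {lam : ℝ} (hl : 0 < lam) {w : List Sym} (hw : VW w) {py px pz : ℝ[X]}
    (H : PD lam w py px pz) :
    H21.Lev (1 / (R lam - 2)) (fun t => px.eval t) (lo lam w) (hi lam w) := by
  obtain ⟨_, hlt, _, hCd, hcont, hmono, _, hlo, hhi, _⟩ := hB lam hl w hw
  have hR := R_gt hl
  have hval : ∀ t ∈ Icc (lo lam w) (hi lam w), (run lam w (2, t)).2 = px.eval t := by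
    intro t ht
    rw [(H.on t ht).1]
  have hl2 : px.eval (lo lam w) = -2 := by rw [← hval _ ⟨le_refl _, hlt.le⟩]; exact hlo
  have hh2 : px.eval (hi lam w) = 2 := by rw [← hval _ ⟨hlt.le, le_refl _⟩]; exact hhi
  have hmem : ∀ t ∈ Icc (lo lam w) (hi lam w), |px.eval t| ≤ 2 := by
    intro t ht
    have h1 := hmono.monotoneOn ⟨le_refl _, hlt.le⟩ ht ht.1
    have h2 := hmono.monotoneOn ht ⟨hlt.le, le_refl _⟩ ht.2
    simp only [hlo, hhi] at h1 h2
    rw [hval t ht] at h1 h2
    rw [abs_le]; exact ⟨h1, h2⟩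
  have hne : ∀ t ∈ Icc (lo lam w) (hi lam w), px.derivative.eval t ≠ 0 := fun t ht =>
    (H.lag t (lt_of_le_of_lt (hmem t ht) hR)).1
  have hpos : ∀ t ∈ Icc (lo lam w) (hi lam w), 0 < px.derivative.eval t := by
    obtain ⟨ξ, hξ, hξ'⟩ := exists_deriv_eq_slope (fun t => px.eval t) hlt
      px.continuous.continuousOn px.differentiable.differentiableOn
    rw [hl2, hh2, deriv_poly] at hξ'
    have hξpos : 0 < px.derivative.eval ξ := by
      simp only at hξ'
      rw [hξ']
      apply div_pos (by norm_num)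
      linarith
    intro t ht
    by_contra hcon
    push Not at hcon
    have hc : ContinuousOn (fun t => px.derivative.eval t) (uIcc t ξ) :=
      px.derivative.continuous.continuousOn
    have hsub := intermediate_value_uIcc hc
    have h0 : (0 : ℝ) ∈ uIcc (px.derivative.eval t) (px.derivative.eval ξ) := by
      rw [uIcc_of_le (hcon.trans hξpos.le)]
      exact ⟨hcon, hξpos.le⟩
    obtain ⟨r, hr, hr0⟩ := hsub h0
    have hrI : r ∈ Icc (lo lam w) (hi lam w) := by
      have := uIcc_subset_Icc ht (Ioo_subset_Icc_self hξ) hr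
      exact this
    exact hne r hrI hr0
  refine ⟨hlt, ?_, hl2, hh2, ?_, ?_⟩
  · exact contDiff_poly px
  · intro t ht
    rw [deriv_poly]
    exact hpos t ht
  · intro t ht
    rw [deriv_poly, deriv_poly]
    have h1 := (H.lag t (lt_of_le_of_lt (hmem t ht) hR)).2
    have h2 : |px.derivative.derivative.eval t| * (R lam - 2) ≤ (px.derivative.eval t) ^ 2 := by
      refine le_trans ?_ h1
      apply mul_le_mul_of_nonneg_left _ (abs_nonneg _)
      linarith [hmem t ht]
    rw [div_mul_eq_mul_div, one_mul, le_div_iff₀ (by linarith)]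
    exact h2

/-! ### linear recursions -/

theorem lin_bound (x : ℝ) (hx : |x| ≤ 2) (T f : ℕ → ℝ)
    (h : ∀ m, T (m + 2) = x * T (m + 1) - T m + f m) (m : ℕ) :
    |T m| ≤ (m + 1) * (|T 0| + |T 1| + ∑ k ∈ Finset.range m, |f k|) := by
  set ω : ℂ := ⟨x / 2, Real.sqrt (1 - (x / 2) ^ 2)⟩ with hω
  have hx2 := abs_le.mp hx
  have hx4 : 0 ≤ 1 - (x / 2) ^ 2 := by nlinarith
  have hn : ‖ω‖ = 1 := by
    rw [Complex.norm_def, Complex.normSq_mk, ← sq, ← sq, Real.sq_sqrt hx4]
    simp
  have hadd : ω + (starRingEnd ℂ) ω = x := by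
    rw [Complex.add_conj]
    simp only [hω]
    push_cast
    ring
  have hmul : ω * (starRingEnd ℂ) ω = 1 := by
    rw [Complex.mul_conj, Complex.normSq_eq_norm_sq, hn]; simp
  have hnc : ‖(starRingEnd ℂ) ω‖ = 1 := by rw [RCLike.norm_conj, hn]
  set v : ℕ → ℂ := fun m => (T (m + 1) : ℂ) - ω * T m with hv
  have hrec : ∀ m, v (m + 1) = (starRingEnd ℂ) ω * v m + f m := by
    intro m
    simp only [hv, h m]
    push_cast
    rw [← hadd]
    linear_combination (T m : ℂ) * hmul
  set B : ℕ → ℝ := fun m => |T 0| + |T 1| + ∑ k ∈ Finset.range m, |f k| with hB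
  have hvB : ∀ m, ‖v m‖ ≤ B m := by
    intro m
    induction m with
    | zero =>
      simp only [hv, hB, Finset.range_zero, Finset.sum_empty, add_zero, zero_add]
      calc ‖((T 1 : ℝ) : ℂ) - ω * (T 0 : ℝ)‖ ≤ ‖((T 1 : ℝ) : ℂ)‖ + ‖ω * (T 0 : ℝ)‖ := norm_sub_le _ _
        _ = |T 0| + |T 1| := by
          rw [norm_mul, hn, Complex.norm_real, Complex.norm_real, Real.norm_eq_abs,
            Real.norm_eq_abs]
          ring
    | succ m ih =>
      rw [hrec]
      calc ‖(starRingEnd ℂ) ω * v m + f m‖ ≤ ‖(starRingEnd ℂ) ω * v m‖ + ‖((f m : ℝ) : ℂ)‖ :=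
            norm_add_le _ _
        _ ≤ B m + |f m| := by
          rw [norm_mul, hnc, one_mul, Complex.norm_real, Real.norm_eq_abs]
          linarith
        _ = B (m + 1) := by simp only [hB, Finset.sum_range_succ]; ring
  have hBmono : ∀ m, B m ≤ B (m + 1) := by
    intro m
    simp only [hB, Finset.sum_range_succ]
    linarith [abs_nonneg (f m)]
  have hB0 : ∀ m, 0 ≤ B m := by
    intro m
    simp only [hB]
    positivity
  show |T m| ≤ (m + 1) * B m
  induction m with
  | zero =>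
    simp only [hB, Finset.range_zero, Finset.sum_empty, add_zero]
    push_cast
    linarith [abs_nonneg (T 1)]
  | succ m ih =>
    have h1 : ‖((T (m + 1) : ℝ) : ℂ)‖ ≤ ‖v m‖ + ‖ω * (T m : ℝ)‖ := by
      have : ((T (m + 1) : ℝ) : ℂ) = v m + ω * (T m : ℝ) := by simp only [hv]; ring
      rw [this]
      exact norm_add_le _ _
    rw [norm_mul, hn, one_mul, Complex.norm_real, Complex.norm_real, Real.norm_eq_abs,
      Real.norm_eq_abs] at h1
    have h2 := hvB m
    have h3 := hBmono m
    have h4 := hB0 m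
    push_cast
    have h5 : ((m : ℝ) + 1) * B m ≤ (m + 1) * B (m + 1) :=
      mul_le_mul_of_nonneg_left h3 (by positivity)
    linarith

/-! ### one step -/

/-- the polynomials `T_m` along a band -/
def TT (e : ℝ) (py px pz : ℝ[X]) : ℕ → ℝ[X]
  | 0 => C e * py
  | 1 => pz - C ((1 - e) / 2) * (px * py)
  | (m + 2) => px * TT e py px pz (m + 1) - TT e py px pz m

theorem zz_e (lam : ℝ) (s : Sym) (y x : ℝ) :
    zz lam (s.e * y) x = zz lam y x - (1 - s.e) / 2 * (x * y) := by
  unfold zz S Sym.e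
  split_ifs
  · simp
  · have : (-1 * y) ^ 2 = y ^ 2 := by ring
    rw [this]
    ring

theorem TT_eval {lam : ℝ} {w : List Sym} {py px pz : ℝ[X]} (H : PD lam w py px pz) (s : Sym)
    {t : ℝ} (ht : t ∈ Icc (lo lam w) (hi lam w)) (m : ℕ) :
    T lam (s.e * py.eval t) (px.eval t) m = (TT s.e py px pz m).eval t := by
  induction m using Nat.strong_induction_on with
  | _ m ih =>
    match m, ih with
    | 0, _ => simp [T, TT]
    | 1, _ =>
      simp only [T, TT]
      rw [zz_e, (H.on t ht).2]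
      simp
    | (n + 2), ih =>
      simp only [T, TT]
      rw [ih n (by omega), ih (n + 1) (by omega)]
      simp

theorem X_eval {lam : ℝ} {w : List Sym} {py px pz : ℝ[X]} (H : PD lam w py px pz) (s : Sym)
    {t : ℝ} (ht : t ∈ Icc (lo lam w) (hi lam w)) :
    H31.ST.X lam s (run lam w (2, t)).1 (run lam w (2, t)).2 =
      (C ((-1) ^ s.i) * TT s.e py px pz s.m).eval t := by
  rw [(H.on t ht).1]
  simp only [H31.ST.X]
  rw [TT_eval H s ht, eval_mul, eval_C]

theorem band_sub (hB : T_BAND) {lam : ℝ} (hl : 0 < lam) {w : List Sym} {s : Sym}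
    (hw : VW (w ++ [s])) : lo lam w < lo lam (w ++ [s]) ∧ hi lam (w ++ [s]) < hi lam w := by
  obtain ⟨hw1, hs⟩ := VW_snoc.1 hw
  obtain ⟨_, _, _, _, _, _, _, _, _, hlast⟩ := hB lam hl w hw1
  obtain ⟨b, e, h1, h2, h3, h4, _, _⟩ := hlast s hs
  exact ⟨h1.trans h2, h3.trans h4⟩

theorem step_poly (hB : T_BAND) {lam : ℝ} (hl : 0 < lam) {w : List Sym} {s : Sym}
    (hw : VW (w ++ [s])) {py px pz qy qx qz : ℝ[X]} (H : PD lam w py px pz)
    (H' : PD lam (w ++ [s]) qy qx qz) :
    qy = px ∧ qx = C ((-1) ^ s.i) * TT s.e py px pz s.m := by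
  obtain ⟨h1, h2⟩ := band_sub hB hl hw
  obtain ⟨_, hlt, _⟩ := hB lam hl (w ++ [s]) hw
  have hsub : ∀ t ∈ Icc (lo lam (w ++ [s])) (hi lam (w ++ [s])), t ∈ Icc (lo lam w) (hi lam w) :=
    fun t ht => ⟨h1.le.trans ht.1, ht.2.trans h2.le⟩
  constructor
  · apply poly_eq hlt
    intro t ht
    have e1 := (H'.on t ht).1
    have e2 := (H.on t (hsub t ht)).1
    have e3 := run_snoc_fst lam w s (2, t)
    rw [e1, e2] at e3
    exact e3
  · apply poly_eq hlt
    intro t ht
    have e1 := (H'.on t ht).1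
    have e3 := run_snoc_snd lam w s (2, t)
    rw [X_eval H s (hsub t ht), e1] at e3
    exact e3

theorem PD.dy (hT : T_TRACK) (hB : T_BAND) (hV : T_ADMV) (hP : T_POLY) (hZ : T_ZEROS)
    (hG : T_GAP) (hL : T_LAG) {lam : ℝ} (hl : 0 < lam) {a : ℕ → ℕ} (ha : ∀ k, 1 ≤ a k) {b : Bool}
    {w : List Sym} {s : St} (h : Adm a (rootSt b) w s) {py px pz : ℝ[X]}
    (H : PD lam w py px pz) {t : ℝ} (ht : t ∈ Icc (lo lam w) (hi lam w)) :
    |py.derivative.eval t| ≤ Real.exp (8 * (1 / (R lam - 2))) * px.derivative.eval t := by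
  have hR := R_gt hl
  have hw := (hV a ha b w s h).1
  have hK0 : 0 ≤ 1 / (R lam - 2) := by
    apply div_nonneg (by norm_num); linarith
  have hlev := H.lev hB hl hw
  have hb := hlev.dbound hK0 ht
  rw [deriv_poly] at hb
  have hxpos := hlev.pos t ht
  rw [deriv_poly] at hxpos
  simp only at hb hxpos
  rcases h.snoc_inv with ⟨hw0, _⟩ | ⟨w0, σ, t0, hw0, hadm0, _⟩
  · subst hw0
    have : py = C 2 := by
      apply poly_eq hlev.lt
      intro r hr
      have := (H.on r hr).1
      simp only [run_nil, Prod.mk.injEq] at this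
      rw [eval_C]; exact this.1.symm
    rw [this]
    simp only [derivative_C, eval_zero, abs_zero]
    positivity
  · subst hw0
    obtain ⟨py0, px0, pz0, H0⟩ := exists_PD hT hB hV hP hZ hG hL hl ha hadm0
    obtain ⟨e1, _⟩ := step_poly hB hl hw H0 H
    obtain ⟨g1, g2⟩ := band_sub hB hl hw
    have ht0 : t ∈ Icc (lo lam w0) (hi lam w0) := ⟨g1.le.trans ht.1, ht.2.trans g2.le⟩
    have hlev0 := H0.lev hB hl (VW_snoc.1 hw).1
    have hb0 := hlev0.dbound hK0 ht0
    rw [deriv_poly] at hb0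
    have hpos0 := hlev0.pos t ht0
    rw [deriv_poly] at hpos0
    simp only at hb0 hpos0
    rw [e1, abs_of_pos hpos0]
    have hlt := hlev.lt
    have hlt0 := hlev0.lt
    set K := 1 / (R lam - 2)
    have h3 : 4 / (hi lam w0 - lo lam w0) ≤ 4 / (hi lam (w0 ++ [σ]) - lo lam (w0 ++ [σ])) := by
      apply div_le_div_of_nonneg_left (by norm_num) (by linarith) (by linarith)
    have h4 : Real.exp (8 * K) * (Real.exp (-(4 * K)) *
        (4 / (hi lam (w0 ++ [σ]) - lo lam (w0 ++ [σ])))) =
        Real.exp (4 * K) * (4 / (hi lam (w0 ++ [σ]) - lo lam (w0 ++ [σ]))) := by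
      rw [← mul_assoc, ← Real.exp_add]
      congr 2
      ring
    calc px0.derivative.eval t ≤ Real.exp (4 * K) * (4 / (hi lam w0 - lo lam w0)) := hb0.2
      _ ≤ Real.exp (4 * K) * (4 / (hi lam (w0 ++ [σ]) - lo lam (w0 ++ [σ]))) :=
          mul_le_mul_of_nonneg_left h3 (Real.exp_pos _).le
      _ = Real.exp (8 * K) * (Real.exp (-(4 * K)) *
        (4 / (hi lam (w0 ++ [σ]) - lo lam (w0 ++ [σ])))) := h4.symm
      _ ≤ Real.exp (8 * K) * px.derivative.eval t :=
          mul_le_mul_of_nonneg_left hb.1 (Real.exp_pos _).le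

theorem dz_real {lam x y z x' y' z' : ℝ} (hl : 0 < lam) (hx : |x| ≤ 2) (hy : |y| ≤ 2)
    (hs : 2 * lam ≤ |2 * z - x * y|)
    (h : (2 * z - x * y) * (2 * z' - x' * y - x * y') =
      -(x * x' * (4 - y ^ 2) + y * y' * (4 - x ^ 2))) :
    |z'| ≤ (1 + 2 / lam) * (|x'| + |y'|) := by
  have hx2 := abs_le.mp hx
  have hy2 := abs_le.mp hy
  have h1 : |x * x' * (4 - y ^ 2) + y * y' * (4 - x ^ 2)| ≤ 8 * (|x'| + |y'|) := by
    have a1 : |x * x' * (4 - y ^ 2)| ≤ 8 * |x'| := by
      rw [abs_mul, abs_mul]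
      have b1 : |4 - y ^ 2| ≤ 4 := by
        rw [abs_le]; constructor <;> nlinarith
      calc |x| * |x'| * |4 - y ^ 2| ≤ 2 * |x'| * 4 := by
            apply mul_le_mul (mul_le_mul_of_nonneg_right hx (abs_nonneg _)) b1 (abs_nonneg _)
            positivity
        _ = 8 * |x'| := by ring
    have a2 : |y * y' * (4 - x ^ 2)| ≤ 8 * |y'| := by
      rw [abs_mul, abs_mul]
      have b1 : |4 - x ^ 2| ≤ 4 := by
        rw [abs_le]; constructor <;> nlinarith
      calc |y| * |y'| * |4 - x ^ 2| ≤ 2 * |y'| * 4 := by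
            apply mul_le_mul (mul_le_mul_of_nonneg_right hy (abs_nonneg _)) b1 (abs_nonneg _)
            positivity
        _ = 8 * |y'| := by ring
    calc |x * x' * (4 - y ^ 2) + y * y' * (4 - x ^ 2)| ≤ _ := abs_add_le _ _
      _ ≤ 8 * (|x'| + |y'|) := by linarith
  have h2 : |2 * z - x * y| * |2 * z' - x' * y - x * y'| ≤ 8 * (|x'| + |y'|) := by
    rw [← abs_mul, h, abs_neg]
    exact h1
  have h3 : 2 * lam * |2 * z' - x' * y - x * y'| ≤ 8 * (|x'| + |y'|) :=
    (mul_le_mul_of_nonneg_right hs (abs_nonneg _)).trans h2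
  have h4 : |2 * z' - x' * y - x * y'| ≤ 4 / lam * (|x'| + |y'|) := by
    rw [div_mul_eq_mul_div, le_div_iff₀ hl]
    linarith
  have h5 : |x' * y + x * y'| ≤ 2 * (|x'| + |y'|) := by
    calc |x' * y + x * y'| ≤ |x' * y| + |x * y'| := abs_add_le _ _
      _ ≤ |x'| * 2 + 2 * |y'| := by
        rw [abs_mul, abs_mul]
        exact add_le_add (mul_le_mul_of_nonneg_left hy (abs_nonneg _))
          (mul_le_mul_of_nonneg_right hx (abs_nonneg _))
      _ = 2 * (|x'| + |y'|) := by ring
  have h6 : z' = ((2 * z' - x' * y - x * y') + (x' * y + x * y')) / 2 := by ring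
  rw [h6, abs_div, abs_two, div_le_iff₀ (by norm_num)]
  calc |(2 * z' - x' * y - x * y') + (x' * y + x * y')| ≤ _ := abs_add_le _ _
    _ ≤ 4 / lam * (|x'| + |y'|) + 2 * (|x'| + |y'|) := add_le_add h4 h5
    _ = (1 + 2 / lam) * (|x'| + |y'|) * 2 := by ring

theorem PD.bds (hB : T_BAND) {lam : ℝ} (hl : 0 < lam) {w : List Sym} (hw : VW w)
    {py px pz : ℝ[X]} (H : PD lam w py px pz) {t : ℝ} (ht : t ∈ Icc (lo lam w) (hi lam w)) :
    |py.eval t| ≤ 2 ∧ |px.eval t| ≤ 2 := by
  obtain ⟨_, hlt, _, hCd, hcont, hmono, hy, hlo, hhi, _⟩ := hB lam hl w hw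
  have e := (H.on t ht).1
  constructor
  · have := hy t ht
    rw [e] at this
    exact this
  · have := (H.lev hB hl hw).mem ht
    rw [abs_le]; exact this

theorem PD.dz (hTr : T_TRIG) (hB : T_BAND) {lam : ℝ} (hl : 0 < lam) {w : List Sym} (hw : VW w)
    {py px pz : ℝ[X]} (H : PD lam w py px pz) {t : ℝ} (ht : t ∈ Icc (lo lam w) (hi lam w)) :
    |pz.derivative.eval t| ≤
      (1 + 2 / lam) * (|px.derivative.eval t| + |py.derivative.eval t|) := by
  have hS := (hTr lam hl).2.1
  have hid : (2 * pz - px * py) ^ 2 = (4 - px ^ 2) * (4 - py ^ 2) + C (4 * lam ^ 2) := by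
    apply poly_eq (H.lev hB hl hw).lt
    intro r hr
    obtain ⟨hy, hx⟩ := H.bds hB hl hw hr
    have hz := (H.on r hr).2
    have e1 : (2 * pz - px * py).eval r = - S lam (py.eval r) (px.eval r) := by
      simp only [eval_sub, eval_mul, eval_ofNat]
      rw [← hz]
      unfold zz
      ring
    rw [eval_pow, e1, neg_sq]
    unfold S
    rw [Real.sq_sqrt]
    · simp
    · have h1 := abs_le.mp hx
      have h2 := abs_le.mp hy
      have h3 : 0 ≤ 4 - (px.eval r) ^ 2 := by nlinarith
      have h4 : 0 ≤ 4 - (py.eval r) ^ 2 := by nlinarith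
      positivity
  have hd := congrArg derivative hid
  obtain ⟨hy, hx⟩ := H.bds hB hl hw ht
  have hz := (H.on t ht).2
  have hd' := congrArg (fun p => p.eval t) hd
  simp only [derivative_pow, derivative_mul, derivative_sub, derivative_add, derivative_C,
    eval_mul, eval_sub, eval_add, eval_pow, eval_ofNat, derivative_ofNat, eval_zero,
    Nat.cast_ofNat, map_ofNat] at hd'
  have hs : 2 * lam ≤ |2 * pz.eval t - px.eval t * py.eval t| := by
    have e1 : 2 * pz.eval t - px.eval t * py.eval t = - S lam (py.eval t) (px.eval t) := by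
      rw [← hz]; unfold zz; ring
    rw [e1, abs_neg]
    have h1 := hS (py.eval t) (px.eval t) hy hx
    rw [abs_of_pos h1.1]
    exact h1.2.2
  refine dz_real hl hx hy hs ?_
  norm_num at hd'
  linarith

/-- the slope constant -/
def KS (lam : ℝ) : ℝ :=
  2 * (Real.exp (8 * (1 / (R lam - 2))) +
    (3 + 2 / lam) * (1 + Real.exp (8 * (1 / (R lam - 2)))) + 2 * (4 + R lam))

theorem slope (hT : T_TRACK) (hTr : T_TRIG) (hB : T_BAND) (hV : T_ADMV) (hP : T_POLY)
    (hZ : T_ZEROS) (hG : T_GAP) (hL : T_LAG) {lam : ℝ} (hl : 0 < lam) {a : ℕ → ℕ}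
    (ha : ∀ k, 1 ≤ a k) {b : Bool} {w : List Sym} {s : St} (h : Adm a (rootSt b) w s) {σ : Sym}
    (hσ : σ.Valid) {py px pz : ℝ[X]} (H : PD lam w py px pz) {t : ℝ}
    (ht : t ∈ Icc (lo lam w) (hi lam w)) :
    |(TT σ.e py px pz σ.m).derivative.eval t| ≤
      KS lam * (σ.m : ℝ) ^ 3 * px.derivative.eval t := by
  have hw := (hV a ha b w s h).1
  have hlev := H.lev hB hl hw
  have hxpos := hlev.pos t ht
  rw [deriv_poly] at hxpos
  simp only at hxpos
  obtain ⟨hy, hx⟩ := H.bds hB hl hw ht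
  have hdy := H.dy hT hB hV hP hZ hG hL hl ha h ht
  have hdz := H.dz hTr hB hl hw ht
  have hz := (H.on t ht).2
  set K2 := Real.exp (8 * (1 / (R lam - 2))) with hK2
  have hK2pos : 0 < K2 := Real.exp_pos _
  set x' := px.derivative.eval t with hx'
  set y' := py.derivative.eval t with hy'
  set z' := pz.derivative.eval t with hz'
  rw [abs_of_pos hxpos] at hdz
  have he : |σ.e| = 1 := σ.abs_e
  have he2 : |(1 - σ.e) / 2| ≤ 1 := by
    rw [abs_div, abs_two, div_le_one (by norm_num)]
    calc |1 - σ.e| ≤ |(1:ℝ)| + |σ.e| := abs_sub _ _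
      _ = 2 := by rw [he]; norm_num
  have hR0 := R_pos lam
  -- values
  have hval : ∀ m : ℕ, |(TT σ.e py px pz m).eval t| ≤ (m + 1) * (4 + R lam) := by
    intro m
    have := lin_bound (px.eval t) hx (fun m => (TT σ.e py px pz m).eval t) (fun _ => 0)
      (by intro m; simp [TT]) m
    simp only [abs_zero, Finset.sum_const_zero, add_zero] at this
    refine this.trans ?_
    apply mul_le_mul_of_nonneg_left _ (by positivity)
    have e0 : |(TT σ.e py px pz 0).eval t| ≤ 2 := by
      simp only [TT, eval_mul, eval_C]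
      rw [abs_mul, he, one_mul]; exact hy
    have e1 : |(TT σ.e py px pz 1).eval t| ≤ 2 + R lam := by
      rw [← TT_eval H σ ht 1]
      simp only [T]
      have hy2 : |σ.e * py.eval t| ≤ 2 := by rw [abs_mul, he, one_mul]; exact hy
      have hSS := (hTr lam hl).2.1 (σ.e * py.eval t) (px.eval t) hy2 hx
      unfold zz
      rw [abs_div, abs_two, div_le_iff₀ (by norm_num)]
      calc |px.eval t * (σ.e * py.eval t) - S lam (σ.e * py.eval t) (px.eval t)|
          ≤ |px.eval t * (σ.e * py.eval t)| + |S lam (σ.e * py.eval t) (px.eval t)| := abs_sub _ _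
        _ ≤ 2 * 2 + 2 * R lam := by
          apply add_le_add
          · rw [abs_mul]
            exact mul_le_mul hx hy2 (abs_nonneg _) (by norm_num)
          · rw [abs_of_pos hSS.1]; exact hSS.2.1
        _ = (2 + R lam) * 2 := by ring
    linarith
  -- derivatives
  have hder := lin_bound (px.eval t) hx (fun m => (TT σ.e py px pz m).derivative.eval t)
      (fun m => x' * (TT σ.e py px pz (m + 1)).eval t)
      (by
        intro m
        simp only [TT, derivative_sub, derivative_mul, eval_sub, eval_add, eval_mul]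
        rw [← hx']
        ring) σ.m
  have d0 : |(TT σ.e py px pz 0).derivative.eval t| ≤ K2 * x' := by
    simp only [TT, derivative_mul, derivative_C, zero_mul, zero_add, eval_mul, eval_C]
    rw [abs_mul, he, one_mul]
    exact hdy
  have d1 : |(TT σ.e py px pz 1).derivative.eval t| ≤ (3 + 2 / lam) * (1 + K2) * x' := by
    have e1 : (TT σ.e py px pz 1).derivative.eval t =
        z' - (1 - σ.e) / 2 * (x' * py.eval t + px.eval t * y') := by
      simp only [TT, derivative_sub, derivative_mul, derivative_C, zero_mul, zero_add, eval_sub,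
        eval_mul, eval_C, eval_add]
      rfl
    rw [e1]
    have a1 : |x' * py.eval t + px.eval t * y'| ≤ 2 * (x' + |y'|) := by
      calc |x' * py.eval t + px.eval t * y'| ≤ |x' * py.eval t| + |px.eval t * y'| := abs_add_le _ _
        _ ≤ x' * 2 + 2 * |y'| := by
          rw [abs_mul, abs_mul, abs_of_pos hxpos]
          exact add_le_add (mul_le_mul_of_nonneg_left hy hxpos.le)
            (mul_le_mul_of_nonneg_right hx (abs_nonneg _))
        _ = _ := by ring
    have a2 : |(1 - σ.e) / 2 * (x' * py.eval t + px.eval t * y')| ≤ 1 * (2 * (x' + |y'|)) := by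
      rw [abs_mul]
      exact mul_le_mul he2 a1 (abs_nonneg _) (by norm_num)
    have a3 : x' + |y'| ≤ (1 + K2) * x' := by linarith
    have a4 : 0 ≤ 3 + 2 / lam := by positivity
    calc |z' - (1 - σ.e) / 2 * (x' * py.eval t + px.eval t * y')|
        ≤ |z'| + |(1 - σ.e) / 2 * (x' * py.eval t + px.eval t * y')| := abs_sub _ _
      _ ≤ (1 + 2 / lam) * (x' + |y'|) + 1 * (2 * (x' + |y'|)) := add_le_add hdz a2
      _ = (3 + 2 / lam) * (x' + |y'|) := by ring
      _ ≤ (3 + 2 / lam) * ((1 + K2) * x') := mul_le_mul_of_nonneg_left a3 a4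
      _ = _ := by ring
  have hm2 : (2 : ℝ) ≤ σ.m := by exact_mod_cast hσ.1
  have dsum : ∑ k ∈ Finset.range σ.m, |x' * (TT σ.e py px pz (k + 1)).eval t| ≤
      (σ.m : ℝ) * (x' * ((σ.m + 1) * (4 + R lam))) := by
    calc ∑ k ∈ Finset.range σ.m, |x' * (TT σ.e py px pz (k + 1)).eval t|
        ≤ ∑ k ∈ Finset.range σ.m, x' * ((σ.m + 1) * (4 + R lam)) := by
          apply Finset.sum_le_sum
          intro k hk
          rw [abs_mul, abs_of_pos hxpos]
          apply mul_le_mul_of_nonneg_left _ hxpos.le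
          refine (hval (k + 1)).trans ?_
          apply mul_le_mul_of_nonneg_right _ (by positivity)
          have : (k : ℝ) + 1 ≤ σ.m := by
            have := Finset.mem_range.mp hk
            exact_mod_cast this
          push_cast
          linarith
      _ = _ := by rw [Finset.sum_const, Finset.card_range, nsmul_eq_mul]
  refine hder.trans ?_
  set m : ℝ := ((σ.m : ℕ) : ℝ) with hm
  set A := 4 + R lam with hA
  have hA0 : 0 < A := by positivity
  set K3 := K2 + (3 + 2 / lam) * (1 + K2) with hK3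
  have hK30 : 0 ≤ K3 := by positivity
  have hKS : KS lam = 2 * (K3 + 2 * A) := by
    simp only [KS, hK3, hA, hK2]
  have s1 : |(TT σ.e py px pz 0).derivative.eval t| + |(TT σ.e py px pz 1).derivative.eval t| +
      ∑ k ∈ Finset.range σ.m, |x' * (TT σ.e py px pz (k + 1)).eval t| ≤
      (K3 + m * (m + 1) * A) * x' := by
    have : (K3 + m * (m + 1) * A) * x' = K2 * x' + (3 + 2 / lam) * (1 + K2) * x' +
        m * (x' * ((m + 1) * A)) := by rw [hK3]; ring
    rw [this]
    linarith
  have s2 : (K3 + m * (m + 1) * A) * x' ≤ (m ^ 2 * (K3 + 2 * A)) * x' := by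
    apply mul_le_mul_of_nonneg_right _ hxpos.le
    have m1 : 1 ≤ m ^ 2 := by nlinarith
    have m2 : m * (m + 1) ≤ 2 * m ^ 2 := by nlinarith
    have m3 : K3 ≤ m ^ 2 * K3 := by nlinarith
    have m4 : m * (m + 1) * A ≤ 2 * m ^ 2 * A := mul_le_mul_of_nonneg_right m2 hA0.le
    nlinarith
  have hm1 : m + 1 ≤ 2 * m := by linarith
  calc (m + 1) * (|(TT σ.e py px pz 0).derivative.eval t| +
        |(TT σ.e py px pz 1).derivative.eval t| +
        ∑ k ∈ Finset.range σ.m, |x' * (TT σ.e py px pz (k + 1)).eval t|)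
      ≤ (2 * m) * ((m ^ 2 * (K3 + 2 * A)) * x') := by
        apply mul_le_mul hm1 (s1.trans s2) (by positivity) (by positivity)
    _ = KS lam * m ^ 3 * x' := by rw [hKS]; ring

theorem chain (hT : T_TRACK) (hP : T_POLY) (hZ : T_ZEROS) (hG : T_GAP) (hL : T_LAG)
    (hB : T_BAND) (hRa : T_RATIO) (hTr : T_TRIG) (hV : T_ADMV) : T_CHAIN := by
  intro lam hl
  have hR := R_gt hl
  obtain ⟨KR, hKR1, hKR⟩ := hRa (R lam) hR
  set K1 := 1 / (R lam - 2) with hK1
  have hK1pos : 0 < K1 := by
    apply div_pos (by norm_num); linarith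
  set K := max KR (max K1 (KS lam)) with hK
  have hKKR : KR ≤ K := le_max_left _ _
  have hKK1 : K1 ≤ K := (le_max_left _ _).trans (le_max_right _ _)
  have hKKS : KS lam ≤ K := (le_max_right _ _).trans (le_max_right _ _)
  have hKone : 1 ≤ K := hKR1.trans hKKR
  refine ⟨K, hKone, ?_⟩
  intro a ha b w s h
  -- polynomial data for all prefixes
  have hex : ∀ j : ℕ, ∃ P : ℝ[X] × ℝ[X] × ℝ[X], PD lam (w.take j) P.1 P.2.1 P.2.2 := by
    intro j
    obtain ⟨t, ht⟩ := h.take j
    obtain ⟨py, px, pz, H⟩ := exists_PD hT hB hV hP hZ hG hL hl ha ht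
    exact ⟨(py, px, pz), H⟩
  choose P hPD using hex
  have hvw : ∀ j, VW (w.take j) := fun j => VW_take (hV a ha b w s h).1 j
  have hlev : ∀ j, H21.Lev K1 (fun t => (P j).2.1.eval t) (lo lam (w.take j)) (hi lam (w.take j)) :=
    fun j => (hPD j).lev hB hl (hvw j)
  have htake : ∀ j, ∀ hj : j < w.length, w.take (j + 1) = w.take j ++ [w[j]'hj] := by
    intro j hj
    rw [List.take_succ_eq_append_getElem hj]
  refine ⟨fun j t => (P j).2.1.eval t, ?_, ?_, ?_⟩
  · constructor
    · intro j _; exact (hlev j).lt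
    · intro j hj
      have h1 := band_sub hB hl (s := w[j]'hj) (w := w.take j) (by
        rw [← htake j hj]; exact hvw (j + 1))
      show _ ≤ _
      rw [htake j hj]
      exact h1.1.le
    · intro j hj
      have h1 := band_sub hB hl (s := w[j]'hj) (w := w.take j) (by
        rw [← htake j hj]; exact hvw (j + 1))
      show _ ≤ _
      rw [htake j hj]
      exact h1.2.le
    · intro j hj
      have hvw' : VW (w.take j ++ [w[j]'hj]) := by rw [← htake j hj]; exact hvw (j + 1)
      obtain ⟨hw1, hσ⟩ := VW_snoc.1 hvw'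
      obtain ⟨_, _, _, _, _, _, _, _, _, hlast⟩ := hB lam hl (w.take j) hw1
      obtain ⟨b', e', g1, g2, g3, g4, g5, g6⟩ := hlast (w[j]'hj) hσ
      have hPDj1 : PD lam (w.take j ++ [w[j]'hj]) (P (j + 1)).1 (P (j + 1)).2.1 (P (j + 1)).2.2 := by
        rw [← htake j hj]; exact hPD (j + 1)
      obtain ⟨_, q2⟩ := step_poly hB hl hvw' (hPD j) hPDj1
      have hl1 := hlev (j + 1)
      rw [htake j hj] at hl1
      have hlt1 := hl1.lt
      have hb' : b' ∈ Icc (lo lam (w.take j)) (hi lam (w.take j)) := ⟨g1.le, by linarith⟩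
      have he' : e' ∈ Icc (lo lam (w.take j)) (hi lam (w.take j)) := ⟨by linarith, g4.le⟩
      rw [X_eval (hPD j) _ hb', ← q2] at g5
      rw [X_eval (hPD j) _ he', ← q2] at g6
      have hrat := hKR (fun t => (P (j + 1)).2.1.eval t) b' (lo lam (w.take j ++ [w[j]'hj]))
        (hi lam (w.take j ++ [w[j]'hj])) e' g2 hlt1 g3 (contDiff_poly _) g5 hl1.xl hl1.xh g6
        (fun t ht => hl1.pos t ht) (by
          intro t _ ht
          rw [deriv_poly, deriv_poly]
          exact hPDj1.lag t ht)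
      show _ ≤ _
      rw [htake j hj]
      have hfac : (1 - 1 / KR) ≤ (1 - 1 / K) := by
        have : 1 / K ≤ 1 / KR := one_div_le_one_div_of_le (by linarith) hKKR
        linarith
      have hfac0 : 0 ≤ 1 - 1 / K := by
        have : 1 / K ≤ 1 := by rw [div_le_one (by linarith)]; exact hKone
        linarith
      calc hi lam (w.take j ++ [w[j]'hj]) - lo lam (w.take j ++ [w[j]'hj])
          ≤ (1 - 1 / KR) * (e' - b') := hrat
        _ ≤ (1 - 1 / K) * (e' - b') := mul_le_mul_of_nonneg_right hfac (by linarith)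
        _ ≤ (1 - 1 / K) * (hi lam (w.take j) - lo lam (w.take j)) :=
            mul_le_mul_of_nonneg_left (by linarith) hfac0
    · intro j _; exact (hlev j).cd
    · intro j _; exact (hlev j).xl
    · intro j _; exact (hlev j).xh
    · intro j _; exact (hlev j).pos
    · intro j _ t ht
      refine ((hlev j).dis t ht).trans ?_
      exact mul_le_mul_of_nonneg_right hKK1 (sq_nonneg _)
  · intro j _ t ht
    rw [((hPD j).on t ht).1]
  · intro j hj t ht
    have hvw' : VW (w.take j ++ [w[j]'hj]) := by rw [← htake j hj]; exact hvw (j + 1)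
    obtain ⟨hw1, hσ⟩ := VW_snoc.1 hvw'
    have hPDj1 : PD lam (w.take j ++ [w[j]'hj]) (P (j + 1)).1 (P (j + 1)).2.1 (P (j + 1)).2.2 := by
      rw [← htake j hj]; exact hPD (j + 1)
    obtain ⟨_, q2⟩ := step_poly hB hl hvw' (hPD j) hPDj1
    have hsub := band_sub hB hl hvw'
    rw [htake j hj] at ht
    have ht' : t ∈ Icc (lo lam (w.take j)) (hi lam (w.take j)) :=
      ⟨hsub.1.le.trans ht.1, ht.2.trans hsub.2.le⟩
    obtain ⟨t0, ht0⟩ := h.take j
    have hs := slope hT hTr hB hV hP hZ hG hL hl ha ht0 hσ (hPD j) ht'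
    rw [deriv_poly, deriv_poly]
    simp only
    rw [q2, derivative_C_mul, eval_mul, eval_C]
    have hxpos := (hlev j).pos t ht'
    rw [deriv_poly] at hxpos
    simp only at hxpos
    calc (-1) ^ (w[j]'hj).i * (TT (w[j]'hj).e (P j).1 (P j).2.1 (P j).2.2 (w[j]'hj).m).derivative.eval t
        ≤ |(-1) ^ (w[j]'hj).i *
            (TT (w[j]'hj).e (P j).1 (P j).2.1 (P j).2.2 (w[j]'hj).m).derivative.eval t| := le_abs_self _
      _ = |(TT (w[j]'hj).e (P j).1 (P j).2.1 (P j).2.2 (w[j]'hj).m).derivative.eval t| := by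
          rw [abs_mul, abs_pow, abs_neg, abs_one, one_pow, one_mul]
      _ ≤ KS lam * ((w[j]'hj).m : ℝ) ^ 3 * (P j).2.1.derivative.eval t := hs
      _ ≤ K * ((w[j]'hj).m : ℝ) ^ 3 * (P j).2.1.derivative.eval t := by
          apply mul_le_mul_of_nonneg_right _ hxpos.le
          exact mul_le_mul_of_nonneg_right hKKS (by positivity)

end H31.ST.H18
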