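import Pool.Agent.H31.ST.Targets

/-! MP_0b97f5_mp, module GAP.  helper18 -/

open Set Filter Topology Matrix

noncomputable section

namespace H31.ST.H18

open H31.ST

/-- one-dimensional lemma: a function whose derivative at its zeros has the sign of `w` has between
two zeros with `w > 0` a zero with `w < 0` -/
theorem zero_between (f w : ℝ → ℝ) (hf : Continuous f)
    (hd : ∀ t, f t = 0 → ∃ r, HasDerivAt f r t ∧ 0 < r * w t)
    (s t : ℝ) (hst : s < t) (hs : f s = 0) (ht : f t = 0) (ws : 0 < w s) (wt : 0 < w t) :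
    ∃ u, s < u ∧ u < t ∧ f u = 0 ∧ w u < 0 := by
  obtain ⟨r, hr, hr0⟩ := hd s hs
  have hrpos : 0 < r := by
    by_contra h
    push Not at h
    nlinarith
  -- a point with f > 0 just after s
  have h1 : ∀ᶠ x in 𝓝[>] s, 0 < f x := by
    have h2 := (hasDerivAt_iff_tendsto_slope.mp hr)
    have h3 : Tendsto (slope f s) (𝓝[>] s) (𝓝 r) :=
      h2.mono_left (nhdsWithin_mono _ (fun x hx => ne_of_gt hx))
    have h4 : ∀ᶠ x in 𝓝[>] s, 0 < slope f s x := h3.eventually (lt_mem_nhds hrpos)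
    filter_upwards [h4, self_mem_nhdsWithin] with x hx hxs
    rw [slope_def_field, hs, sub_zero] at hx
    have hxs' : 0 < x - s := sub_pos.mpr hxs
    exact (div_pos_iff_of_pos_right hxs').mp hx
  have h2 : ∀ᶠ x in 𝓝[>] s, x < t := by
    filter_upwards [Ioo_mem_nhdsGT hst] with x hx
    exact hx.2
  obtain ⟨s0, ⟨hs0, hs0t⟩, hs0s⟩ := ((h1.and h2).and self_mem_nhdsWithin).exists
  have hs0s' : s < s0 := hs0s
  let Z : Set ℝ := {x | x ∈ Icc s0 t ∧ f x ≤ 0}
  have hZc : IsClosed Z := isClosed_Icc.inter (isClosed_le hf continuous_const)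
  have hZne : Z.Nonempty := ⟨t, ⟨hs0t.le, le_refl _⟩, ht.le⟩
  have hZb : BddBelow Z := ⟨s0, fun x hx => hx.1.1⟩
  have hmem : sInf Z ∈ Z := hZc.csInf_mem hZne hZb
  set u := sInf Z with hu
  have hus0 : s0 < u := by
    rcases eq_or_lt_of_le hmem.1.1 with h | h
    · exfalso
      have := hmem.2
      rw [← h] at this
      linarith
    · exact h
  have hbelow : ∀ x, s0 ≤ x → x < u → 0 < f x := by
    intro x h3 h4
    by_contra h5
    push Not at h5
    have : x ∈ Z := ⟨⟨h3, h4.le.trans hmem.1.2⟩, h5⟩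
    exact absurd (csInf_le hZb this) (not_le.mpr h4)
  have hfu0 : 0 ≤ f u := by
    have h3 : Tendsto f (𝓝[<] u) (𝓝 (f u)) := hf.continuousAt.tendsto.mono_left nhdsWithin_le_nhds
    refine ge_of_tendsto h3 ?_
    filter_upwards [Ioo_mem_nhdsLT hus0] with x hx
    exact (hbelow x hx.1.le hx.2).le
  have hfu : f u = 0 := le_antisymm hmem.2 hfu0
  obtain ⟨r', hr', hr0'⟩ := hd u hfu
  have hwu : w u < 0 := by
    by_contra h
    push Not at h
    have hr1 : 0 < r' := by
      by_contra h6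
      push Not at h6
      nlinarith
    have h2 := (hasDerivAt_iff_tendsto_slope.mp hr')
    have h3 : Tendsto (slope f u) (𝓝[<] u) (𝓝 r') :=
      h2.mono_left (nhdsWithin_mono _ (fun x hx => ne_of_lt hx))
    have h4 : ∀ᶠ x in 𝓝[<] u, 0 < slope f u x := h3.eventually (lt_mem_nhds hr1)
    have h5 : ∀ᶠ x in 𝓝[<] u, s0 < x := by
      filter_upwards [Ioo_mem_nhdsLT hus0] with x hx
      exact hx.1
    obtain ⟨x, ⟨hx1, hx2⟩, hx3⟩ := ((h4.and h5).and self_mem_nhdsWithin).exists
    have hx3' : x < u := hx3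
    rw [slope_def_field, hfu, sub_zero] at hx1
    have hneg : x - u < 0 := sub_neg.mpr hx3'
    have hfx : f x < 0 := by
      by_contra h6
      push Not at h6
      have := div_nonpos_of_nonneg_of_nonpos h6 hneg.le
      linarith
    linarith [hbelow x hx2.le hx3']
  refine ⟨u, by linarith, ?_, hfu, hwu⟩
  rcases eq_or_lt_of_le hmem.1.2 with h | h
  · exfalso
    rw [h] at hwu
    linarith
  · exact h

theorem Mm_continuous (lam : ℝ) (a : ℕ → ℕ) (n : ℕ) : Continuous (fun E => Mm lam a E n) := by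
  induction n using Nat.strong_induction_on with
  | _ n ih =>
    match n, ih with
    | 0, _ => exact continuous_const
    | 1, _ =>
      refine continuous_matrix ?_
      intro i j
      fin_cases i <;> fin_cases j <;> simp [Mm] <;> fun_prop
    | (k + 2), ih =>
      have h1 := ih k (by omega)
      have h2 := ih (k + 1) (by omega)
      show Continuous (fun E => Mm lam a E k * (Mm lam a E (k + 1)) ^ (a k))
      exact h1.mul (h2.pow _)

theorem conj_explicit (V W : Mat) :
    V.adjugate * W * V =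
      !![(V 1 1 * W 0 0 - V 0 1 * W 1 0) * V 0 0 + (V 1 1 * W 0 1 - V 0 1 * W 1 1) * V 1 0,
         (V 1 1 * W 0 0 - V 0 1 * W 1 0) * V 0 1 + (V 1 1 * W 0 1 - V 0 1 * W 1 1) * V 1 1;
         (-V 1 0 * W 0 0 + V 0 0 * W 1 0) * V 0 0 + (-V 1 0 * W 0 1 + V 0 0 * W 1 1) * V 1 0,
         (-V 1 0 * W 0 0 + V 0 0 * W 1 0) * V 0 1 + (-V 1 0 * W 0 1 + V 0 0 * W 1 1) * V 1 1] := by
  ext i j
  rw [Matrix.mul_apply, Fin.sum_univ_two, Matrix.mul_apply, Matrix.mul_apply, Fin.sum_univ_two,
    Fin.sum_univ_two, adjugate_fin_two]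
  fin_cases i <;> fin_cases j <;> simp <;> ring

theorem conj10 (V W : Mat) : (V.adjugate * W * V) 1 0 =
    (-V 1 0 * W 0 0 + V 0 0 * W 1 0) * V 0 0 + (-V 1 0 * W 0 1 + V 0 0 * W 1 1) * V 1 0 := by
  rw [conj_explicit]; simp

/-- sign of the conjugated entry -/
theorem conj_sign (V W : Mat) (hV : V.det = 1) (hW : W.det = 1) (hE : |W.trace| < 2) :
    0 < (V.adjugate * W * V) 1 0 * W 1 0 := by
  rw [det_fin_two] at hV hW
  rw [trace_fin_two] at hE
  have hE2 : (W 0 0 + W 1 1) ^ 2 < 4 := by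
    have := abs_lt.mp hE
    nlinarith
  have e : (V.adjugate * W * V) 1 0 =
      W 1 0 * V 0 0 ^ 2 + (W 1 1 - W 0 0) * (V 0 0 * V 1 0) - W 0 1 * V 1 0 ^ 2 := by
    rw [conj10]
    ring
  rw [e]
  have hr : W 1 0 ≠ 0 := by
    intro h0
    rw [h0] at hW
    nlinarith [sq_nonneg (W 0 0 - W 1 1)]
  have key : (W 1 0 * V 0 0 ^ 2 + (W 1 1 - W 0 0) * (V 0 0 * V 1 0) - W 0 1 * V 1 0 ^ 2) * W 1 0 =
      (W 1 0 * V 0 0 + (W 1 1 - W 0 0) * V 1 0 / 2) ^ 2 +
        (4 - (W 0 0 + W 1 1) ^ 2) / 4 * V 1 0 ^ 2 := by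
    linear_combination (V 1 0 ^ 2) * hW
  rw [key]
  rcases eq_or_ne (V 1 0) 0 with h0 | h0
  · have ha : V 0 0 ≠ 0 := by
      intro h1
      rw [h0, h1] at hV
      norm_num at hV
    rw [h0]
    have : 0 < (W 1 0 * V 0 0) ^ 2 := by positivity
    nlinarith
  · have h1 : 0 < (4 - (W 0 0 + W 1 1) ^ 2) / 4 * V 1 0 ^ 2 := by
      apply mul_pos (by linarith)
      positivity
    have h2 := sq_nonneg (W 1 0 * V 0 0 + (W 1 1 - W 0 0) * V 1 0 / 2)
    linarith

/-- the determinant of `W + V⁻¹ W V` -/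
theorem det_sum (V W : Mat) (hV : V.det = 1) (hW : W.det = 1) :
    (W + V.adjugate * W * V).det =
      V.trace ^ 2 + W.trace ^ 2 + (V * W).trace ^ 2 - V.trace * W.trace * (V * W).trace := by
  rw [det_fin_two] at hV hW
  rw [conj_explicit, det_fin_two, trace_fin_two, trace_fin_two, trace_fin_two]
  simp only [Matrix.add_apply, Matrix.mul_apply, Fin.sum_univ_two, Matrix.of_apply,
    Matrix.cons_val', Matrix.cons_val_zero, Matrix.cons_val_one, Matrix.cons_val_fin_one]
  linear_combination ((W 0 0 * W 1 1 - W 0 1 * W 1 0) * (V 0 0 * V 1 1 - V 0 1 * V 1 0 - 1) +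
    (W 0 0 + W 1 1) ^ 2) * hV + (V 0 0 + V 1 1) ^ 2 * hW

theorem trace_sum (V W : Mat) (hV : V.det = 1) :
    (W + V.adjugate * W * V).trace = 2 * W.trace := by
  rw [det_fin_two] at hV
  rw [conj_explicit, trace_fin_two, trace_fin_two]
  simp only [Matrix.add_apply, Matrix.of_apply,
    Matrix.cons_val', Matrix.cons_val_zero, Matrix.cons_val_one, Matrix.cons_val_fin_one]
  linear_combination (W 0 0 + W 1 1) * hV

theorem spos_neg (A : ℝ → Mat) (t d : ℝ) (h : SPos A t d) : SPos (fun s => -(A s)) t d := by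
  obtain ⟨H, h1, h2, h3, h4, h5, h6, h7⟩ := h
  refine ⟨H, h1, h2, h3, h4, h5, h6, fun i j => ?_⟩
  have := (h7 i j).fun_neg
  simpa using this

theorem gap (hE : T_EPOS) (hT : T_TRDER) (hC : T_COM) : T_GAP := by
  intro lam hlam a ha n hn E₁ E₂ h12 hz1 hz2
  obtain ⟨k, rfl⟩ : ∃ k, n = k + 1 := ⟨n - 1, by omega⟩
  set W : ℝ → Mat := fun E => Mm lam a E (k + 1) with hW
  set V : ℝ → Mat := fun E => Mm lam a E k with hV
  have hdV : ∀ E, (V E).det = 1 := fun E => (hC lam a E k).1
  have hdW : ∀ E, (W E).det = 1 := fun E => (hC lam a E (k + 1)).1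
  have hcW : Continuous W := Mm_continuous lam a (k + 1)
  have hcV : Continuous V := Mm_continuous lam a k
  let f : ℝ → ℝ := fun E => (W E).trace
  let w : ℝ → ℝ := fun E => (W E) 1 0
  have hfc : Continuous f := hcW.matrix_trace
  have hwc : Continuous w := hcW.matrix_elem 1 0
  have hwne : ∀ E, |f E| < 2 → w E ≠ 0 := by
    intro E hE' h0
    have h1 := hdW E
    rw [det_fin_two] at h1
    have h2 : (W E) 1 0 = 0 := h0
    have h3 : ((W E) 0 0 + (W E) 1 1) ^ 2 < 4 := by
      have h4 : |(W E) 0 0 + (W E) 1 1| < 2 := by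
        have := hE'
        simp only [f] at this
        rwa [trace_fin_two] at this
      have := abs_lt.mp h4
      nlinarith
    rw [h2] at h1
    nlinarith [sq_nonneg ((W E) 0 0 - (W E) 1 1)]
  have hder : ∀ t, f t = 0 → ∃ r, HasDerivAt f r t ∧ 0 < r * w t := by
    intro t ht
    have hsp : SPos W t 0 := hE lam a ha t (k + 1) hn
    have hft : |f t| < 2 := by rw [ht]; norm_num
    rcases lt_or_gt_of_ne (hwne t hft) with h | h
    · -- negative
      have h1 := (hT (fun s => -(W s)) t 0 (by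
        have := hdW t
        rw [det_fin_two] at this ⊢
        simpa using this) (by
        have h2 : (-(W t)).trace = - f t := by simp [f]
        show |(-(W t)).trace| < 2
        rw [h2, abs_neg]; exact hft) (by
        show 0 < (-(W t)) 1 0
        have : (W t) 1 0 < 0 := h
        simpa using this)).2 (spos_neg W t 0 hsp)
      obtain ⟨r, hr, hr0, _⟩ := h1
      refine ⟨-r, ?_, by nlinarith⟩
      have := hr.fun_neg
      simpa [f] using this
    · have h1 := (hT W t 0 (hdW t) hft h).2 hsp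
      obtain ⟨r, hr, hr0, _⟩ := h1
      exact ⟨r, hr, mul_pos hr0 h⟩
  -- two points with |f| < 2 and opposite signs of w
  have hf1 : f E₁ = 0 := hz1
  have hf2 : f E₂ = 0 := hz2
  have hopp : ∃ s t, E₁ ≤ s ∧ s < t ∧ t ≤ E₂ ∧ |f s| < 2 ∧ |f t| < 2 ∧ w s * w t < 0 := by
    have ha1 : |f E₁| < 2 := by rw [hf1]; norm_num
    have ha2 : |f E₂| < 2 := by rw [hf2]; norm_num
    rcases lt_or_gt_of_ne (hwne E₁ ha1) with h1 | h1
    · rcases lt_or_gt_of_ne (hwne E₂ ha2) with h2 | h2
      · obtain ⟨u, hu1, hu2, hu3, hu4⟩ := zero_between (fun x => - f x) (fun x => - w x) hfc.neg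
          (by
            intro t ht
            obtain ⟨r, hr, hr0⟩ := hder t (by simpa using ht)
            exact ⟨-r, hr.neg, by nlinarith⟩) E₁ E₂ h12 (by simp [hf1]) (by simp [hf2])
            (by simpa using h1) (by simpa using h2)
        have hu3' : f u = 0 := by simpa using hu3
        refine ⟨E₁, u, le_refl _, hu1, hu2.le, ha1, by rw [hu3']; norm_num, ?_⟩
        exact mul_neg_of_neg_of_pos h1 (by simpa using hu4)
      · exact ⟨E₁, E₂, le_refl _, h12, le_refl _, ha1, ha2, mul_neg_of_neg_of_pos h1 h2⟩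
    · rcases lt_or_gt_of_ne (hwne E₂ ha2) with h2 | h2
      · exact ⟨E₁, E₂, le_refl _, h12, le_refl _, ha1, ha2, mul_neg_of_pos_of_neg h1 h2⟩
      · obtain ⟨u, hu1, hu2, hu3, hu4⟩ := zero_between f w hfc hder E₁ E₂ h12 hf1 hf2 h1 h2
        exact ⟨E₁, u, le_refl _, hu1, hu2.le, ha1, by rw [hu3]; norm_num,
          mul_neg_of_pos_of_neg h1 hu4⟩
  obtain ⟨s, t, hs, hst, ht, hfs, hft, hwst⟩ := hopp
  let c : ℝ → ℝ := fun E => (W E + (V E).adjugate * W E * V E) 1 0
  have hcc : Continuous c := by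
    have : Continuous (fun E => W E + (V E).adjugate * W E * V E) :=
      hcW.add ((hcV.matrix_adjugate.mul hcW).mul hcV)
    exact this.matrix_elem 1 0
  have hsign : ∀ E, |f E| < 2 → 0 < c E * w E := by
    intro E hE'
    have h1 := conj_sign (V E) (W E) (hdV E) (hdW E) hE'
    have h2 : c E * w E = w E ^ 2 + ((V E).adjugate * W E * V E) 1 0 * (W E) 1 0 := by
      simp only [c, w, Matrix.add_apply]
      ring
    rw [h2]
    positivity
  have hcs := hsign s hfs
  have hct := hsign t hft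
  have hcst : c s * c t < 0 := by
    by_contra h
    push Not at h
    have h1 : 0 < (c s * w s) * (c t * w t) := mul_pos hcs hct
    nlinarith
  obtain ⟨E, hEm, hcE⟩ : ∃ E ∈ Ioo s t, c E = 0 := by
    rcases lt_or_gt_of_ne (show c s ≠ 0 by intro h; rw [h] at hcst; simp at hcst) with h | h
    · have h2 : 0 < c t := by
        by_contra h3
        push Not at h3
        nlinarith
      have := intermediate_value_Ioo hst.le hcc.continuousOn (show (0:ℝ) ∈ Ioo (c s) (c t) from ⟨h, h2⟩)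
      obtain ⟨E, h1, h2⟩ := this
      exact ⟨E, h1, h2⟩
    · have h2 : c t < 0 := by
        by_contra h3
        push Not at h3
        nlinarith
      have := intermediate_value_Ioo' hst.le hcc.continuousOn (show (0:ℝ) ∈ Ioo (c t) (c s) from ⟨h2, h⟩)
      obtain ⟨E, h1, h2⟩ := this
      exact ⟨E, h1, h2⟩
  refine ⟨E, ⟨lt_of_le_of_lt hs hEm.1, lt_of_lt_of_le hEm.2 ht⟩, ?_⟩
  have hdet := det_sum (V E) (W E) (hdV E) (hdW E)
  have htr := trace_sum (V E) (W E) (hdV E)
  have hcom := (hC lam a E k).2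
  have hdet' : (W E + (V E).adjugate * W E * V E).det = 4 + lam ^ 2 := by
    rw [hdet]
    have e1 : xt lam a k E = (V E).trace := rfl
    have e2 : xt lam a (k + 1) E = (W E).trace := rfl
    rw [e1, e2] at hcom
    exact hcom
  set B := W E + (V E).adjugate * W E * V E with hB
  have hB10 : B 1 0 = 0 := hcE
  rw [det_fin_two, hB10, mul_zero, sub_zero] at hdet'
  rw [trace_fin_two] at htr
  have hx : xt lam a (k + 1) E = (W E).trace := rfl
  rw [hx]
  unfold R
  rw [← Real.sqrt_sq_eq_abs]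
  apply Real.sqrt_le_sqrt
  have htr' : (W E).trace = (B 0 0 + B 1 1) / 2 := by linarith
  rw [htr', ← hdet']
  nlinarith [sq_nonneg (B 0 0 - B 1 1)]

end H31.ST.H18
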